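import Pool.Agent.Q222.MK.SLAW
import Pool.Agent.Q222.MK.TLAW
import Pool.Agent.Q280.MK.HYP1
import Pool.Agent.Q291.MK.Stm3

set_option autoImplicit false
set_option linter.all false

namespace Pool.Agent.Q65.MK

open Pool.Agent.Q291.MK Finset
open Pool.Agent.Q222.MK

theorem hyp1 : P_HYP1 := Pool.Agent.Q280.MK.t_HYP1

/-- the absolute value of a perturbation against a polynomially bounded function -/
theorem Sg.summ {h : ℕ → ℝ} (hh : Sg h) {φ : ℕ → ℝ} (hφ : PB φ) :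
    Summable fun k => |h k| * |φ k| := by
  obtain ⟨C, q, hC, hb⟩ := hφ.nonneg_C
  have h1 : Summable fun k => |h k| * (C * ∑ i ∈ range (q + 1), (q.choose i : ℝ) * (k:ℝ) ^ i) := by
    have : (fun k => |h k| * (C * ∑ i ∈ range (q + 1), (q.choose i : ℝ) * (k:ℝ) ^ i)) =
        fun k => ∑ i ∈ range (q + 1), (C * q.choose i) * (|h k| * (k:ℝ) ^ i) := by
      funext k
      rw [Finset.mul_sum, Finset.mul_sum]
      exact Finset.sum_congr rfl fun i _ => by ring
    rw [this]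
    exact summable_sum fun i _ => (hh.mom i).mul_left _
  refine Summable.of_nonneg_of_le (fun k => by positivity) (fun k => ?_) h1
  refine mul_le_mul_of_nonneg_left ((hb k).trans (le_of_eq ?_)) (abs_nonneg _)
  congr 1
  rw [add_comm (1:ℝ), add_pow]
  exact Finset.sum_congr rfl fun i _ => by ring

theorem Sg.summ' {h : ℕ → ℝ} (hh : Sg h) {φ : ℕ → ℝ} (hφ : PB φ) :
    Summable fun k => h k * φ k := by
  refine Summable.of_norm ?_
  simpa [abs_mul] using Sg.summ hh hφ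

theorem summ2 {a h : ℕ → ℝ} (ha : AM a) (hh : Sg h) {φ : ℕ → ℕ → ℝ} (hφ : PB2 φ) :
    Summable fun p : ℕ × ℕ => |a p.1 * h p.2 * φ p.1 p.2| := by
  obtain ⟨C, q, hC, hb⟩ := hφ.nonneg_C
  have hpb : PB (fun k => (1 + (k:ℝ)) ^ q) := (((PB.const 1).add PB.id).pow q)
  have hs : Summable fun k => a k * (1 + (k:ℝ)) ^ q := ha.summ hpb
  have hs2 : Summable fun k => |h k| * |(1 + (k:ℝ)) ^ q| := Sg.summ hh hpb
  have h0 : 0 ≤ fun k => a k * (1 + (k:ℝ)) ^ q := fun k =>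
    mul_nonneg (ha.nn k) (by positivity)
  have h02 : 0 ≤ fun k => |h k| * |(1 + (k:ℝ)) ^ q| := fun k => by
    show 0 ≤ |h k| * |(1 + (k:ℝ)) ^ q|
    positivity
  have h1 := (hs.mul_of_nonneg hs2 h0 h02).mul_left C
  refine Summable.of_nonneg_of_le (fun p => abs_nonneg _) (fun p => ?_) h1
  rw [abs_mul, abs_mul, abs_of_nonneg (ha.nn p.1)]
  refine (mul_le_mul_of_nonneg_left (hb p.1 p.2) (mul_nonneg (ha.nn _) (abs_nonneg _))).trans
    (le_of_eq ?_)
  rw [mul_pow, abs_of_nonneg (show 0 ≤ (1 + (p.2:ℝ)) ^ q by positivity)]; ring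

theorem summ2' {a h : ℕ → ℝ} (ha : AM a) (hh : Sg h) {φ : ℕ → ℕ → ℝ} (hφ : PB2 φ) :
    Summable fun p : ℕ × ℕ => a p.1 * h p.2 * φ p.1 p.2 :=
  Summable.of_norm (by simpa using summ2 ha hh hφ)

/-- partial expectation -/
theorem PB_part {a : ℕ → ℝ} (ha : AM a) {φ : ℕ → ℕ → ℝ} (hφ : PB2 φ) :
    PB (fun L => E a (fun K => φ K L)) := by
  obtain ⟨C, q, hC, hb⟩ := hφ.nonneg_C
  have hpb : PB (fun k => (1 + (k:ℝ)) ^ q) := (((PB.const 1).add PB.id).pow q)
  refine ⟨C * E a (fun k => (1 + (k:ℝ)) ^ q), q, fun L => ?_⟩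
  have hL : PB (fun K => φ K L) := by
    refine ⟨C * (1 + (L:ℝ)) ^ q, q, fun K => (hb K L).trans (le_of_eq ?_)⟩
    rw [mul_pow]; ring
  refine (ha.abs_E_le hL).trans ?_
  have h2 : E a (fun k => |φ k L|) ≤ E a (fun k => (C * (1 + (L:ℝ)) ^ q) * (1 + (k:ℝ)) ^ q) := by
    refine ha.E_mono hL.abs ((PB.const _).mul hpb) fun K => (hb K L).trans (le_of_eq ?_)
    rw [mul_pow]; ring
  refine h2.trans (le_of_eq ?_)
  rw [E_const_mul]; ring

/-- Fubini: the double sum as an expectation under the perturbation -/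
theorem EE_eq {a h : ℕ → ℝ} (ha : AM a) (hh : Sg h) {φ : ℕ → ℕ → ℝ} (hφ : PB2 φ) :
    EE a h φ = E h (fun L => E a (fun K => φ K L)) := by
  have hs := summ2' ha hh hφ
  unfold EE
  have h1 : ∑' p : ℕ × ℕ, a p.1 * h p.2 * φ p.1 p.2 =
      ∑' p : ℕ × ℕ, a p.2 * h p.1 * φ p.2 p.1 := by
    rw [← (Equiv.prodComm ℕ ℕ).tsum_eq]
    rfl
  have hs' : Summable fun p : ℕ × ℕ => a p.2 * h p.1 * φ p.2 p.1 := by
    have := (Equiv.prodComm ℕ ℕ).summable_iff.mpr hs
    exact this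
  rw [h1, hs'.tsum_prod]
  unfold E
  refine tsum_congr fun L => ?_
  rw [← tsum_mul_left]
  exact tsum_congr fun K => by ring

theorem PB2_TH {a : ℕ → ℝ} (ha : AM a) {φ : ℕ → ℝ} (hφ : PB φ) :
    PB2 (fun K L => I (K + L) * (H K L φ - E (T a) φ)) :=
  PB2.I.mul ((PB2_H hyp1 hφ).sub (PB2.const _))

theorem TT_EE {a h : ℕ → ℝ} (ha : AM a) (hh : Sg h) {φ : ℕ → ℝ} (hφ : PB φ) :
    E h (TT a φ) = 2 * EE a h (fun K L => I (K + L) * (H K L φ - E (T a) φ)) /
      E2 a (fun K L => I (K + L)) := by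
  rw [EE_eq ha hh (PB2_TH ha hφ)]
  unfold TT
  have h1 : (fun L => 2 * E a (fun K => I (K + L) * (H K L φ - E (T a) φ)) /
      E2 a (fun K L => I (K + L))) = fun L => (2 / E2 a (fun K L => I (K + L))) *
      E a (fun K => I (K + L) * (H K L φ - E (T a) φ)) := by
    funext L; ring
  rw [h1, E_const_mul]; ring

theorem PB_TT {a : ℕ → ℝ} (ha : AM a) {φ : ℕ → ℝ} (hφ : PB φ) : PB (TT a φ) := by
  have h1 : TT a φ = fun L => (2 / E2 a (fun K L => I (K + L))) *
      E a (fun K => I (K + L) * (H K L φ - E (T a) φ)) := by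
    funext L; unfold TT; ring
  rw [h1]
  exact (PB.const _).mul (PB_part ha (PB2_TH ha hφ))

theorem PB_SS {a : ℕ → ℝ} (ha : AM a) {φ : ℕ → ℝ} (hφ : PB φ) : PB (SS a φ) :=
  (PB.const 2).mul (PB_part ha (PB_sum hφ))

/-- the triple sum -/
theorem hasSum_dT {a h : ℕ → ℝ} (ha : AM a) (hh : Sg h) {φ : ℕ → ℝ} (hφ : PB φ) :
    (Summable fun j => |dT a h j| * |φ j|) ∧ E (dT a h) φ = E h (TT a φ) := by
  have haT : AM (T a) := AM_T hyp1 ha
  set Z := E2 a (fun K L => I (K + L)) with hZ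
  have hZ0 : 0 < Z := ha.Z_pos
  set f : (ℕ × ℕ) × ℕ → ℝ := fun r =>
    a r.1.1 * h r.1.2 * (I (r.1.1 + r.1.2) * ((hyp r.1.1 r.1.2 r.2 - T a r.2) * φ r.2)) with hf
  set g : (ℕ × ℕ) × ℕ → ℝ := fun r =>
    a r.1.1 * |h r.1.2| * ((hyp r.1.1 r.1.2 r.2 + T a r.2) * |φ r.2|) with hg
  have hfib : ∀ p : ℕ × ℕ, HasSum (fun j => f (p, j))
      (a p.1 * h p.2 * (I (p.1 + p.2) * (H p.1 p.2 φ - E (T a) φ))) := fun p => by
    have h1 := hasSum_H p.1 p.2 φ
    have h2 : HasSum (fun j => T a j * φ j) (E (T a) φ) := (haT.summ hφ).hasSum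
    have h3 := ((h1.sub h2).mul_left (I (p.1 + p.2))).mul_left (a p.1 * h p.2)
    have h4 : (fun j => f (p, j)) = fun j => a p.1 * h p.2 * (I (p.1 + p.2) *
        (hyp p.1 p.2 j * φ j - T a j * φ j)) := by
      funext j
      simp only [hf]
      ring
    rw [h4]; exact h3
  have hfibg : ∀ p : ℕ × ℕ, HasSum (fun j => g (p, j))
      (a p.1 * |h p.2| * (H p.1 p.2 (fun j => |φ j|) + E (T a) (fun j => |φ j|))) := fun p => by
    have h1 := hasSum_H p.1 p.2 (fun j => |φ j|)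
    have h2 : HasSum (fun j => T a j * |φ j|) (E (T a) (fun j => |φ j|)) :=
      (haT.summ hφ.abs).hasSum
    have h3 := ((h1.add h2)).mul_left (a p.1 * |h p.2|)
    have h4 : (fun j => g (p, j)) = fun j => a p.1 * |h p.2| *
        (hyp p.1 p.2 j * |φ j| + T a j * |φ j|) := by
      funext j
      simp only [hg]
      ring
    rw [h4]; exact h3
  have hg0 : ∀ r, 0 ≤ g r := fun r => by
    simp only [hg]
    exact mul_nonneg (mul_nonneg (ha.nn _) (abs_nonneg _))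
      (mul_nonneg (add_nonneg ((hyp1 _ _).1 _) (haT.nn _)) (abs_nonneg _))
  have hsg : Summable g := by
    rw [summable_prod_of_nonneg hg0]
    refine ⟨fun p => (hfibg p).summable, ?_⟩
    have h1 : (fun p : ℕ × ℕ => ∑' j, g (p, j)) = fun p =>
        |a p.1 * h p.2 * (H p.1 p.2 (fun j => |φ j|) + E (T a) (fun j => |φ j|))| := by
      funext p
      rw [(hfibg p).tsum_eq, abs_mul, abs_mul, abs_of_nonneg (ha.nn _)]
      congr 1
      rw [abs_of_nonneg]
      refine add_nonneg (H_abs_nonneg hyp1 _ _ _) ?_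
      unfold E
      exact tsum_nonneg fun j => mul_nonneg (haT.nn _) (abs_nonneg _)
    rw [h1]
    exact summ2 ha hh ((PB2_H_abs hyp1 hφ).add (PB2.const _))
  have hfg : ∀ r, ‖f r‖ ≤ g r := fun r => by
    simp only [hf, hg, Real.norm_eq_abs, abs_mul, abs_of_nonneg (ha.nn _), abs_of_pos (I_pos _)]
    refine mul_le_mul_of_nonneg_left ?_ (mul_nonneg (ha.nn _) (abs_nonneg _))
    have h1 : |hyp r.1.1 r.1.2 r.2 - T a r.2| ≤ hyp r.1.1 r.1.2 r.2 + T a r.2 := by
      have h2 := (hyp1 r.1.1 r.1.2).1 r.2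
      have h3 := haT.nn r.2
      rw [abs_le]; constructor <;> linarith
    calc I (r.1.1 + r.1.2) * (|hyp r.1.1 r.1.2 r.2 - T a r.2| * |φ r.2|) ≤
        1 * (|hyp r.1.1 r.1.2 r.2 - T a r.2| * |φ r.2|) :=
          mul_le_mul_of_nonneg_right (I_le_one _) (by positivity)
      _ ≤ _ := by
          rw [one_mul]
          exact mul_le_mul_of_nonneg_right h1 (abs_nonneg _)
  have hs : Summable f := Summable.of_norm_bounded hsg hfg
  -- sum in the other order
  have hsw : Summable (f ∘ (Equiv.prodComm ℕ (ℕ × ℕ))) := (Equiv.prodComm ℕ (ℕ × ℕ)).summable_iff.mpr hs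
  have hswg : Summable (g ∘ (Equiv.prodComm ℕ (ℕ × ℕ))) :=
    (Equiv.prodComm ℕ (ℕ × ℕ)).summable_iff.mpr hsg
  have hPBj : ∀ j : ℕ, PB2 (fun K L => I (K + L) * (hyp K L j - T a j)) := fun j =>
    PB2.I.mul ((PB2_hyp hyp1 j).sub (PB2.const _))
  have hfj : ∀ j : ℕ, HasSum (fun p : ℕ × ℕ => (f ∘ (Equiv.prodComm ℕ (ℕ × ℕ))) (j, p))
      (Z / 2 * (dT a h j * φ j)) := fun j => by
    have h5 := (summ2' ha hh (hPBj j)).hasSum.mul_right (φ j)
    have h6 : (fun p : ℕ × ℕ => (f ∘ (Equiv.prodComm ℕ (ℕ × ℕ))) (j, p)) = fun p : ℕ × ℕ =>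
        a p.1 * h p.2 * (I (p.1 + p.2) * (hyp p.1 p.2 j - T a j)) * φ j := by
      funext p
      simp only [hf, Function.comp, Equiv.prodComm_apply, Prod.swap_prod_mk]
      ring
    rw [h6]
    have h7 : Z / 2 * (dT a h j * φ j) =
        (∑' p : ℕ × ℕ, a p.1 * h p.2 * (I (p.1 + p.2) * (hyp p.1 p.2 j - T a j))) * φ j := by
      unfold dT EE
      rw [← hZ]
      field_simp
    rw [h7]
    exact h5
  have hA : HasSum (fun j => Z / 2 * (dT a h j * φ j))
      (∑' r, (f ∘ (Equiv.prodComm ℕ (ℕ × ℕ))) r) := hsw.hasSum.prod_fiberwise hfj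
  have hB : HasSum (fun p : ℕ × ℕ => a p.1 * h p.2 * (I (p.1 + p.2) * (H p.1 p.2 φ - E (T a) φ)))
      (∑' r, f r) := hs.hasSum.prod_fiberwise hfib
  have hC : ∑' r, (f ∘ (Equiv.prodComm ℕ (ℕ × ℕ))) r = ∑' r, f r :=
    (Equiv.prodComm ℕ (ℕ × ℕ)).tsum_eq f
  constructor
  · have h1 : ∀ j, |dT a h j| * |φ j| ≤
        (2 / Z) * ∑' p : ℕ × ℕ, (g ∘ (Equiv.prodComm ℕ (ℕ × ℕ))) (j, p) := by
      intro j
      have h2 : |Z / 2 * (dT a h j * φ j)| ≤
          ∑' p : ℕ × ℕ, (g ∘ (Equiv.prodComm ℕ (ℕ × ℕ))) (j, p) := by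
        rw [← (hfj j).tsum_eq]
        have h3 : Summable fun p : ℕ × ℕ => ‖(f ∘ (Equiv.prodComm ℕ (ℕ × ℕ))) (j, p)‖ :=
          Summable.of_nonneg_of_le (fun _ => norm_nonneg _) (fun p => hfg _) (hswg.prod_factor j)
        refine (norm_tsum_le_tsum_norm h3).trans ?_
        exact Summable.tsum_le_tsum (fun p => hfg _) h3 (hswg.prod_factor j)
      rw [abs_mul, abs_mul, abs_of_pos (show 0 < Z / 2 by positivity)] at h2
      calc |dT a h j| * |φ j| = (2 / Z) * (Z / 2 * (|dT a h j| * |φ j|)) := by field_simp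
        _ ≤ _ := mul_le_mul_of_nonneg_left h2 (by positivity)
    refine Summable.of_nonneg_of_le (fun j => by positivity) h1 ?_
    exact (hswg.prod).mul_left _
  · have h1 : E (dT a h) φ = (2 / Z) * ∑' r, f r := by
      rw [← hC, ← hA.tsum_eq, tsum_mul_left]
      unfold E
      field_simp
    have h2 : ∑' r, f r = EE a h (fun K L => I (K + L) * (H K L φ - E (T a) φ)) := by
      rw [← hB.tsum_eq]; rfl
    rw [TT_EE ha hh hφ, h1, h2, ← hZ]
    ring

theorem hasSum_dS {a h : ℕ → ℝ} (ha : AM a) (hh : Sg h) {φ : ℕ → ℝ} (hφ : PB φ) :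
    (Summable fun j => |dS a h j| * |φ j|) ∧ E (dS a h) φ = E h (SS a φ) := by
  have hP := PB_sum hφ
  have hs := summ2' ha hh hP
  have hsn := summ2 ha hh hP
  -- signed
  have h2 := (Finset.HasAntidiagonal.sigmaAntidiagonalEquivProd (A := ℕ)).hasSum_iff.mpr hs.hasSum
  have h3 := h2.sigma (fun n => hasSum_fintype _)
  have h2n := (Finset.HasAntidiagonal.sigmaAntidiagonalEquivProd (A := ℕ)).hasSum_iff.mpr hsn.hasSum
  have h3n := h2n.sigma (fun n => hasSum_fintype _)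
  have h4 : (fun k => dS a h k * φ k) = fun b => 2 *
      ∑ c : ↥(Finset.HasAntidiagonal.antidiagonal b),
        ((fun p : ℕ × ℕ => a p.1 * h p.2 * φ (p.1 + p.2)) ∘
          ⇑(Finset.HasAntidiagonal.sigmaAntidiagonalEquivProd (A := ℕ))) ⟨b, c⟩ := by
    funext k
    unfold dS
    rw [mul_assoc, Finset.sum_mul]
    congr 1
    simp only [Function.comp, Finset.HasAntidiagonal.sigmaAntidiagonalEquivProd_apply]
    rw [Finset.sum_coe_sort (Finset.HasAntidiagonal.antidiagonal k)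
      (fun p : ℕ × ℕ => a p.1 * h p.2 * φ (p.1 + p.2))]
    refine Finset.sum_congr rfl fun p hp => ?_
    rw [Finset.HasAntidiagonal.mem_antidiagonal] at hp
    rw [hp]
  have h4n : ∀ k, |dS a h k| * |φ k| ≤ 2 *
      ∑ c : ↥(Finset.HasAntidiagonal.antidiagonal k),
        ((fun p : ℕ × ℕ => |a p.1 * h p.2 * φ (p.1 + p.2)|) ∘
          ⇑(Finset.HasAntidiagonal.sigmaAntidiagonalEquivProd (A := ℕ))) ⟨k, c⟩ := by
    intro k
    have h5 := congrFun h4 k
    rw [← abs_mul, h5, abs_mul, abs_of_pos (show (0:ℝ) < 2 by norm_num)]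
    exact mul_le_mul_of_nonneg_left (Finset.abs_sum_le_sum_abs _ _) (by norm_num)
  constructor
  · exact Summable.of_nonneg_of_le (fun j => by positivity) h4n (h3n.summable.mul_left 2)
  · have h6 : E (dS a h) φ = 2 * EE a h (fun K L => φ (K + L)) := by
      unfold E
      rw [h4, tsum_mul_left, h3.tsum_eq]
      rfl
    rw [h6, EE_eq ha hh hP]
    unfold SS
    rw [E_const_mul]

theorem t_ADJ : P_ADJ := by
  intro a h ha hh
  have habs : ∀ (j q : ℕ), |((j:ℝ)) ^ q| = (j:ℝ) ^ q := fun j q => abs_of_nonneg (by positivity)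
  refine ⟨⟨fun q => ?_, ?_⟩, ⟨fun q => ?_, ?_⟩, fun φ hφ =>
    ⟨PB_TT ha hφ, PB_SS ha hφ, (hasSum_dT ha hh hφ).2, (hasSum_dS ha hh hφ).2⟩⟩
  · have := (hasSum_dT ha hh (PB.id.pow q)).1
    simpa only [habs] using this
  · rw [(hasSum_dT ha hh (PB.const 1)).2]
    have haT : AM (T a) := AM_T hyp1 ha
    have h1 : TT a (fun _ => (1:ℝ)) = fun _ => 0 := by
      funext L
      unfold TT
      have h2 : (fun K => I (K + L) * (H K L (fun _ => 1) - E (T a) (fun _ => 1))) =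
          fun K => 0 * (1:ℝ) := by
        funext K
        rw [(hyp1 K L).2.2.2.1, haT.toLaw.E_const]
        ring
      rw [h2, E_const_mul]
      ring
    rw [h1]
    unfold E
    simp
  · have := (hasSum_dS ha hh (PB.id.pow q)).1
    simpa only [habs] using this
  · rw [(hasSum_dS ha hh (PB.const 1)).2]
    have h1 : SS a (fun _ => (1:ℝ)) = fun _ => 2 * 1 := by
      funext L
      unfold SS
      rw [ha.toLaw.E_const]
    rw [h1, E_const_mul, hh.zero]
    ring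

end Pool.Agent.Q65.MK
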