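import Pool.Agent.Q291.MK.Stm3

set_option autoImplicit false
set_option linter.all false

namespace Pool.Agent.Q65.MK

open Pool.Agent.Q291.MK Finset

/-- growth along an interval -/
theorem tele (f : ℕ → ℝ) (B : ℝ) (J : ℕ) : ∀ n : ℕ, (∀ i, J ≤ i → i < J + n → |dl f i| ≤ B) →
    |f (J + n) - f J| ≤ n * B := by
  intro n
  induction n with
  | zero => intro _; simp
  | succ n ih =>
    intro h
    have h1 := ih fun i h1 h2 => h i h1 (by omega)
    have h2 := h (J + n) (by omega) (by omega)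
    have h3 : f (J + (n + 1)) - f J = dl f (J + n) + (f (J + n) - f J) := by
      unfold dl
      rw [← add_assoc]; ring
    rw [h3]
    refine (abs_add_le _ _).trans ?_
    push_cast
    linarith

/-- the difference of the values is bounded by the distance times a bound on the whole interval -/
theorem mvt (f : ℕ → ℝ) (m : ℝ) (g : ℝ → ℝ) (g0 : ℝ) (hg : ∀ x y, 0 ≤ x → x ≤ y → g x ≤ g y)
    (h0 : ∀ x, 0 ≤ x → g0 ≤ g x)
    (hf : ∀ i : ℕ, |dl f i| ≤ g |(i:ℝ) - m|) (J J' : ℕ) :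
    |f J - f J'| ≤ |(J:ℝ) - J'| * (g |(J:ℝ) - m| + g |(J':ℝ) - m| - g0) := by
  have main : ∀ J J' : ℕ, J ≤ J' →
      |f J - f J'| ≤ |(J:ℝ) - J'| * (g |(J:ℝ) - m| + g |(J':ℝ) - m| - g0) := by
    intro J J' h
    obtain ⟨n, rfl⟩ := Nat.exists_eq_add_of_le h
    have h1 := tele f (g |(J:ℝ) - m| + g |((J + n : ℕ):ℝ) - m| - g0) J n ?_
    · rw [abs_sub_comm (f J)]
      refine h1.trans (le_of_eq ?_)
      congr 1
      push_cast
      rw [show (J:ℝ) - (J + n) = -n by ring, abs_neg, abs_of_nonneg (Nat.cast_nonneg n)]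
    · intro i hi1 hi2
      refine (hf i).trans ?_
      have hi1' : (J:ℝ) ≤ i := by exact_mod_cast hi1
      have hi2' : (i:ℝ) ≤ ((J + n : ℕ):ℝ) := by exact_mod_cast hi2.le
      have h2 : |(i:ℝ) - m| ≤ max |(J:ℝ) - m| |((J + n : ℕ):ℝ) - m| := by
        rw [abs_le]
        constructor
        · have := neg_abs_le ((J:ℝ) - m)
          have := le_max_left |(J:ℝ) - m| |((J + n : ℕ):ℝ) - m|
          linarith
        · have := le_abs_self (((J + n : ℕ):ℝ) - m)
          have := le_max_right |(J:ℝ) - m| |((J + n : ℕ):ℝ) - m|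
          linarith
      have h3 := hg _ _ (abs_nonneg _) h2
      rcases max_cases |(J:ℝ) - m| |((J + n : ℕ):ℝ) - m| with ⟨h4, _⟩ | ⟨h4, _⟩
      · rw [h4] at h3
        have := h0 |((J + n : ℕ):ℝ) - m| (abs_nonneg _)
        linarith
      · rw [h4] at h3
        have := h0 |(J:ℝ) - m| (abs_nonneg _)
        linarith
  rcases le_total J J' with h | h
  · exact main J J' h
  · have := main J' J h
    rw [abs_sub_comm (f J), abs_sub_comm (J:ℝ)]
    rw [add_comm (g |(J:ℝ) - m|)]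
    exact this

section
variable {b : ℕ → ℝ}

theorem E_one (hb : AM b) : E b (fun _ => 1) = 1 := hb.toLaw.E_const 1

theorem PBz (m : ℝ) : PB (fun k => |(k:ℝ) - m|) := (PB.id.sub (PB.const m)).abs

theorem Ez1 (hb : AM b) (hv : vr b ≤ mean b) (hm : 0 < mean b) :
    E b (fun k => |(k:ℝ) - mean b|) ≤ √(mean b) := by
  set m := mean b with hmd
  set s := √m with hs
  have hs0 : 0 < s := Real.sqrt_pos.mpr hm
  have hs2 : s ^ 2 = m := Real.sq_sqrt hm.le
  have hp2 : PB (fun k => ((k:ℝ) - m) ^ 2) := (PB.id.sub (PB.const m)).pow 2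
  have h1 : E b (fun k => |(k:ℝ) - m|) ≤ E b (fun k => (1 / (2 * s)) * ((k:ℝ) - m) ^ 2 + s / 2) := by
    refine hb.E_mono (PBz m) (((PB.const _).mul hp2).add (PB.const _)) fun k => ?_
    have h2 : |(k:ℝ) - m| ^ 2 = ((k:ℝ) - m) ^ 2 := sq_abs _
    rw [← h2]
    have h3 : 0 ≤ (|(k:ℝ) - m| - s) ^ 2 := sq_nonneg _
    have h4 : (1 / (2 * s)) * |(k:ℝ) - m| ^ 2 + s / 2 - |(k:ℝ) - m| =
        (1 / (2 * s)) * (|(k:ℝ) - m| - s) ^ 2 := by
      field_simp
      ring
    have h5 : 0 ≤ (1 / (2 * s)) * (|(k:ℝ) - m| - s) ^ 2 := by positivity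
    linarith
  rw [hb.E_add ((PB.const _).mul hp2) (PB.const _), E_const_mul, hb.toLaw.E_const] at h1
  have h6 : E b (fun k => ((k:ℝ) - m) ^ 2) ≤ m := hv
  have h7 : (1 / (2 * s)) * E b (fun k => ((k:ℝ) - m) ^ 2) ≤ (1 / (2 * s)) * m :=
    mul_le_mul_of_nonneg_left h6 (by positivity)
  have h8 : (1 / (2 * s)) * m = s / 2 := by
    rw [← hs2]; field_simp
  linarith

theorem Ezp (hb : AM b) (C12 : ℝ) (h12 : m12 b ≤ C12 * mean b ^ 6) (hm : 0 < mean b) (p : ℕ)
    (hp : p ≤ 12) :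
    E b (fun k => |(k:ℝ) - mean b| ^ p) ≤ (1 + C12) * √(mean b) ^ p := by
  set m := mean b with hmd
  set s := √m with hs
  have hs0 : 0 < s := Real.sqrt_pos.mpr hm
  have hs2 : s ^ 2 = m := Real.sq_sqrt hm.le
  have hs12 : s ^ 12 = m ^ 6 := by rw [← hs2]; ring
  have hp12 : PB (fun k => ((k:ℝ) - m) ^ 12) := (PB.id.sub (PB.const m)).pow 12
  have h1 : E b (fun k => |(k:ℝ) - m| ^ p) ≤
      E b (fun k => s ^ p + (s ^ p / m ^ 6) * ((k:ℝ) - m) ^ 12) := by
    refine hb.E_mono ((PBz m).pow p) ((PB.const _).add ((PB.const _).mul hp12)) fun k => ?_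
    have h2 : ((k:ℝ) - m) ^ 12 = |(k:ℝ) - m| ^ 12 := by
      rw [← abs_pow]; exact (abs_of_nonneg (by positivity)).symm
    rw [h2]
    set z := |(k:ℝ) - m| with hz
    have hz0 : 0 ≤ z := abs_nonneg _
    rw [← hs12]
    have hsp : 0 < s ^ p := pow_pos hs0 p
    have h3 : z ^ p = s ^ p * (z / s) ^ p := by
      rw [div_pow]; field_simp
    have h4 : (s ^ p / s ^ 12) * z ^ 12 = s ^ p * (z / s) ^ 12 := by
      rw [div_pow]; field_simp
    rw [h3, h4]
    suffices hsuf : (z / s) ^ p ≤ 1 + (z / s) ^ 12 by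
      have := mul_le_mul_of_nonneg_left hsuf hsp.le
      linarith
    have hr : 0 ≤ z / s := by positivity
    rcases le_total (z / s) 1 with h5 | h5
    · have := pow_le_one₀ (n := p) hr h5
      have : 0 ≤ (z / s) ^ 12 := by positivity
      linarith
    · have := pow_le_pow_right₀ h5 hp
      linarith
  rw [hb.E_add (PB.const _) ((PB.const _).mul hp12), E_const_mul, hb.toLaw.E_const] at h1
  have h6 : E b (fun k => ((k:ℝ) - m) ^ 12) ≤ C12 * m ^ 6 := h12
  have h7 : (s ^ p / m ^ 6) * E b (fun k => ((k:ℝ) - m) ^ 12) ≤ (s ^ p / m ^ 6) * (C12 * m ^ 6) :=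
    mul_le_mul_of_nonneg_left h6 (by positivity)
  have h8 : (s ^ p / m ^ 6) * (C12 * m ^ 6) = C12 * s ^ p := by
    field_simp
  linarith

end

theorem t_GRO : P_GRO := by
  intro C3 C8 C12 hC12
  refine ⟨1 / (5 * (1 + C12)), by positivity, fun e he0 he1 b hb hm φ hφ h1 h2 J => ?_⟩
  have hbA : AM b := hb.toCls.toAM
  have hm0 : 0 < mean b := by linarith
  set m := mean b with hmd
  set s := √m with hs
  have hs0 : 0 < s := Real.sqrt_pos.mpr hm0
  have hs2 : s ^ 2 = m := Real.sq_sqrt hm0.le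
  have hes : e * (1 + C12) ≤ 1 / 5 := by
    have : e * (1 + C12) ≤ 1 / (5 * (1 + C12)) * (1 + C12) :=
      mul_le_mul_of_nonneg_right he1 (by linarith)
    refine this.trans (le_of_eq ?_)
    have : (1 + C12) ≠ 0 := by positivity
    field_simp
  -- the weight as a function of the distance
  set ω : ℝ → ℝ := fun x => 1 + e * (x ^ 10 / m ^ 5) with hω
  have hwt : ∀ i : ℕ, wt e m i = ω |(i:ℝ) - m| := by
    intro i
    unfold wt
    simp only [hω]
    congr 3
    rw [← abs_pow]; exact (abs_of_nonneg (by positivity)).symm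
  have hω1 : ∀ x, 0 ≤ x → 1 ≤ ω x := fun x hx => by
    simp only [hω]
    have : 0 ≤ e * (x ^ 10 / m ^ 5) := by positivity
    linarith
  have hωm : ∀ x y, 0 ≤ x → x ≤ y → ω x ≤ ω y := fun x y hx hxy => by
    simp only [hω]
    gcongr
  have EZ1 := Ez1 hbA hb.vr_le hm0
  have EZ10 := Ezp hbA C12 hb.m12_le hm0 10 (by norm_num)
  have EZ11 := Ezp hbA C12 hb.m12_le hm0 11 (by norm_num)
  have EZ12 := Ezp hbA C12 hb.m12_le hm0 12 (by norm_num)
  rw [← hmd, ← hs] at EZ1 EZ10 EZ11 EZ12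
  have hs10 : s ^ 10 = m ^ 5 := by rw [← hs2]; ring
  have hm5 : 0 < m ^ 5 := by positivity
  have EZ2 : E b (fun k => |(k:ℝ) - m| ^ 2) ≤ s ^ 2 := by
    have : (fun k : ℕ => |(k:ℝ) - m| ^ 2) = fun k : ℕ => ((k:ℝ) - m) ^ 2 := by
      funext k; exact sq_abs _
    rw [this, hs2]
    exact hb.vr_le
  have pz : ∀ p : ℕ, PB (fun k => |(k:ℝ) - m| ^ p) := fun p => (PBz m).pow p
  have pb1 := hφ.pb
  have pdl : PB (dl φ) := by
    have h3 : PB (fun k => φ (k + 1)) := by
      obtain ⟨C, q, hC, h⟩ := pb1.nonneg_C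
      refine ⟨C * 2 ^ q, q, fun k => (h (k + 1)).trans ?_⟩
      rw [mul_assoc, ← mul_pow]
      push_cast
      have : (0:ℝ) ≤ k := Nat.cast_nonneg k
      gcongr
      linarith
    exact h3.sub pb1
  -- first claim
  have hA : ∀ J : ℕ, |dl φ J| ≤ (1 + e * (1 + C12)) * ((|(J:ℝ) - m| + s) * ω |(J:ℝ) - m|) := by
    intro J
    set x := |(J:ℝ) - m| with hx
    have hx0 : 0 ≤ x := abs_nonneg _
    have h3 : ∀ J' : ℕ, |dl φ J - dl φ J'| ≤ |(J:ℝ) - J'| * (ω x + ω |(J':ℝ) - m| - 1) :=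
      fun J' => mvt (dl φ) m ω 1 hωm hω1 (fun i => by rw [← hwt]; exact hφ.bd i) J J'
    have h4 : ∀ J' : ℕ, |dl φ J - dl φ J'| ≤ x * ω x + ω x * |(J':ℝ) - m| +
        (e / m ^ 5 * x) * |(J':ℝ) - m| ^ 10 + (e / m ^ 5) * |(J':ℝ) - m| ^ 11 := by
      intro J'
      refine (h3 J').trans ?_
      set z := |(J':ℝ) - m| with hz
      have hz0 : 0 ≤ z := abs_nonneg _
      have h5 : |(J:ℝ) - J'| ≤ x + z := by
        have : (J:ℝ) - J' = ((J:ℝ) - m) - ((J':ℝ) - m) := by ring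
        rw [this]; exact abs_sub _ _
      have h6 : ω z - 1 = e / m ^ 5 * z ^ 10 := by simp only [hω]; ring
      have h7 : 0 ≤ ω x + ω z - 1 := by linarith [hω1 x hx0, hω1 z hz0]
      calc |(J:ℝ) - J'| * (ω x + ω z - 1) ≤ (x + z) * (ω x + (ω z - 1)) := by
            rw [← add_sub_assoc]
            exact mul_le_mul_of_nonneg_right h5 h7
        _ = _ := by rw [h6]; ring
    have h5 : |dl φ J| = |E b (fun J' => dl φ J - dl φ J')| := by
      rw [hbA.E_sub (PB.const _) pdl, hbA.toLaw.E_const, h1, sub_zero]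
    rw [h5]
    refine (hbA.abs_E_le ((PB.const _).sub pdl)).trans ?_
    have q1 : PB (fun k : ℕ => x * ω x + ω x * |(k:ℝ) - m|) :=
      (PB.const _).add ((PB.const _).mul (PBz m))
    have q2 : PB (fun k : ℕ => (e / m ^ 5 * x) * |(k:ℝ) - m| ^ 10) := (PB.const _).mul (pz 10)
    have q3 : PB (fun k : ℕ => (e / m ^ 5) * |(k:ℝ) - m| ^ 11) := (PB.const _).mul (pz 11)
    refine (hbA.E_mono ((PB.const _).sub pdl).abs ((q1.add q2).add q3) h4).trans ?_
    rw [hbA.E_add (q1.add q2) q3, hbA.E_add q1 q2, hbA.E_add (PB.const _) ((PB.const _).mul (PBz m)),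
      hbA.toLaw.E_const, E_const_mul, E_const_mul, E_const_mul]
    have r1 : ω x * E b (fun k => |(k:ℝ) - m|) ≤ ω x * s :=
      mul_le_mul_of_nonneg_left EZ1 (by linarith [hω1 x hx0])
    have r2 : (e / m ^ 5 * x) * E b (fun k => |(k:ℝ) - m| ^ 10) ≤ e * (1 + C12) * x := by
      refine (mul_le_mul_of_nonneg_left EZ10 (by positivity)).trans (le_of_eq ?_)
      rw [hs10]; field_simp
    have r3 : (e / m ^ 5) * E b (fun k => |(k:ℝ) - m| ^ 11) ≤ e * (1 + C12) * s := by
      refine (mul_le_mul_of_nonneg_left EZ11 (by positivity)).trans (le_of_eq ?_)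
      rw [← hs10]; field_simp
    have r4 : e * (1 + C12) * (x + s) ≤ e * (1 + C12) * ((x + s) * ω x) := by
      refine mul_le_mul_of_nonneg_left ?_ (by positivity)
      exact le_mul_of_one_le_right (by positivity) (hω1 x hx0)
    linarith
  set κ := 1 + e * (1 + C12) with hκ
  have hκ1 : κ ≤ 6 / 5 := by linarith
  have hκ0 : 1 ≤ κ := by
    have : 0 ≤ e * (1 + C12) := by positivity
    linarith
  rw [hwt]
  set x := |(J:ℝ) - m| with hx
  have hx0 : 0 ≤ x := abs_nonneg _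
  have hwx := hω1 x hx0
  constructor
  · refine (hA J).trans ?_
    rw [mul_assoc]
    exact mul_le_mul_of_nonneg_right (by linarith) (by positivity)
  · have h3 : ∀ J' : ℕ, |φ J - φ J'| ≤ |(J:ℝ) - J'| *
        ((fun y => κ * ((y + s) * ω y)) x + (fun y => κ * ((y + s) * ω y)) |(J':ℝ) - m| - 0) :=
      fun J' => mvt φ m (fun y => κ * ((y + s) * ω y)) 0
        (fun u v hu huv => by
          have := hω1 u hu
          have := hωm u v hu huv
          have hv : 0 ≤ v := hu.trans huv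
          show κ * ((u + s) * ω u) ≤ κ * ((v + s) * ω v)
          gcongr)
        (fun u hu => by
          have := hω1 u hu
          show 0 ≤ κ * ((u + s) * ω u)
          positivity) hA J J'
    have h4 : ∀ J' : ℕ, |φ J - φ J'| ≤ κ * ((x + s) * ω x * x) + κ * (x * s) +
        (κ * ((x + s) * ω x) + κ * (x + s)) * |(J':ℝ) - m| + κ * |(J':ℝ) - m| ^ 2 +
        (κ * (e / m ^ 5) * (x * s)) * |(J':ℝ) - m| ^ 10 +
        (κ * (e / m ^ 5) * (x + s)) * |(J':ℝ) - m| ^ 11 +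
        (κ * (e / m ^ 5)) * |(J':ℝ) - m| ^ 12 := by
      intro J'
      refine (h3 J').trans ?_
      simp only
      set z := |(J':ℝ) - m| with hz
      have hz0 : 0 ≤ z := abs_nonneg _
      have h5 : |(J:ℝ) - J'| ≤ x + z := by
        have : (J:ℝ) - J' = ((J:ℝ) - m) - ((J':ℝ) - m) := by ring
        rw [this]; exact abs_sub _ _
      have h6 : ω z = 1 + e / m ^ 5 * z ^ 10 := by simp only [hω]; ring
      have hwz := hω1 z hz0
      have h7 : 0 ≤ κ * ((x + s) * ω x) + κ * ((z + s) * ω z) - 0 := by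
        have : 0 ≤ κ * ((x + s) * ω x) := by positivity
        have : 0 ≤ κ * ((z + s) * ω z) := by positivity
        linarith
      calc |(J:ℝ) - J'| * (κ * ((x + s) * ω x) + κ * ((z + s) * ω z) - 0) ≤
          (x + z) * (κ * ((x + s) * ω x) + κ * ((z + s) * ω z) - 0) :=
            mul_le_mul_of_nonneg_right h5 h7
        _ = _ := by rw [h6]; ring
    have h5 : |φ J| = |E b (fun J' => φ J - φ J')| := by
      rw [hbA.E_sub (PB.const _) pb1, hbA.toLaw.E_const, h2, sub_zero]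
    rw [h5]
    refine (hbA.abs_E_le ((PB.const _).sub pb1)).trans ?_
    have q0 : PB (fun k : ℕ => κ * ((x + s) * ω x * x) + κ * (x * s)) := PB.const _
    have q1 : PB (fun k : ℕ => (κ * ((x + s) * ω x) + κ * (x + s)) * |(k:ℝ) - m|) :=
      (PB.const _).mul (PBz m)
    have q2 : PB (fun k : ℕ => κ * |(k:ℝ) - m| ^ 2) := (PB.const _).mul (pz 2)
    have q3 : PB (fun k : ℕ => (κ * (e / m ^ 5) * (x * s)) * |(k:ℝ) - m| ^ 10) :=
      (PB.const _).mul (pz 10)
    have q4 : PB (fun k : ℕ => (κ * (e / m ^ 5) * (x + s)) * |(k:ℝ) - m| ^ 11) :=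
      (PB.const _).mul (pz 11)
    have q5 : PB (fun k : ℕ => (κ * (e / m ^ 5)) * |(k:ℝ) - m| ^ 12) :=
      (PB.const _).mul (pz 12)
    refine (hbA.E_mono ((PB.const _).sub pb1).abs (((((q0.add q1).add q2).add q3).add q4).add q5)
      h4).trans ?_
    rw [hbA.E_add ((((q0.add q1).add q2).add q3).add q4) q5,
      hbA.E_add (((q0.add q1).add q2).add q3) q4, hbA.E_add ((q0.add q1).add q2) q3,
      hbA.E_add (q0.add q1) q2, hbA.E_add q0 q1, hbA.toLaw.E_const, E_const_mul, E_const_mul,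
      E_const_mul, E_const_mul, E_const_mul]
    have hk0 : 0 ≤ κ := by linarith
    have r1 : (κ * ((x + s) * ω x) + κ * (x + s)) * E b (fun k => |(k:ℝ) - m|) ≤
        (κ * ((x + s) * ω x) + κ * (x + s)) * s :=
      mul_le_mul_of_nonneg_left EZ1 (by positivity)
    have r2 : κ * E b (fun k => |(k:ℝ) - m| ^ 2) ≤ κ * s ^ 2 :=
      mul_le_mul_of_nonneg_left EZ2 hk0
    have r3 : (κ * (e / m ^ 5) * (x * s)) * E b (fun k => |(k:ℝ) - m| ^ 10) ≤
        κ * (e * (1 + C12)) * (x * s) := by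
      refine (mul_le_mul_of_nonneg_left EZ10 (by positivity)).trans (le_of_eq ?_)
      rw [hs10]; field_simp
    have r4 : (κ * (e / m ^ 5) * (x + s)) * E b (fun k => |(k:ℝ) - m| ^ 11) ≤
        κ * (e * (1 + C12)) * ((x + s) * s) := by
      refine (mul_le_mul_of_nonneg_left EZ11 (by positivity)).trans (le_of_eq ?_)
      rw [← hs10]; field_simp
    have r5 : (κ * (e / m ^ 5)) * E b (fun k => |(k:ℝ) - m| ^ 12) ≤
        κ * (e * (1 + C12)) * s ^ 2 := by
      refine (mul_le_mul_of_nonneg_left EZ12 (by positivity)).trans (le_of_eq ?_)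
      rw [← hs10]; field_simp
    set t := e * (1 + C12) with ht
    have ht0 : 0 ≤ t := by positivity
    -- collect
    have hsum : κ * ((x + s) * ω x * x) + κ * (x * s) + (κ * ((x + s) * ω x) + κ * (x + s)) * s +
        κ * s ^ 2 + κ * t * (x * s) + κ * t * ((x + s) * s) + κ * t * s ^ 2 ≤
        6 * (x + s) ^ 2 * ω x := by
      have u1 : κ * ((x + s) * ω x * x) + κ * ((x + s) * ω x) * s = κ * ((x + s) ^ 2 * ω x) := by
        ring
      have u2 : x * s + (x + s) * s + s ^ 2 ≤ 2 * (x + s) ^ 2 := by nlinarith [mul_nonneg hx0 hs0.le]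
      have u3 : (x + s) ^ 2 ≤ (x + s) ^ 2 * ω x := le_mul_of_one_le_right (by positivity) hwx
      have u4 : κ * (1 + t) * (x * s + (x + s) * s + s ^ 2) ≤
          κ * (1 + t) * (2 * ((x + s) ^ 2 * ω x)) :=
        mul_le_mul_of_nonneg_left (by linarith) (by positivity)
      have hk : κ * (1 + t) ≤ 36 / 25 := by
        have h9 : 1 + t ≤ 6 / 5 := hκ1
        calc κ * (1 + t) ≤ 6 / 5 * (6 / 5) := mul_le_mul hκ1 h9 (by positivity) (by norm_num)
          _ = _ := by norm_num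
      set Y := (x + s) ^ 2 * ω x with hY
      have hY0 : 0 ≤ Y := by positivity
      have u5 : κ * (1 + t) * (2 * Y) ≤ 36 / 25 * (2 * Y) :=
        mul_le_mul_of_nonneg_right hk (by positivity)
      have u6 : κ * Y ≤ 6 / 5 * Y := mul_le_mul_of_nonneg_right hκ1 hY0
      calc _ = κ * Y + κ * (1 + t) * (x * s + (x + s) * s + s ^ 2) := by rw [hY]; ring
        _ ≤ 6 * Y := by linarith
        _ = _ := by rw [hY]; ring
    linarith

end Pool.Agent.Q65.MK
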