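import Pool.Agent.Q280.MK.HYP2
import Pool.Agent.Q291.MK.Stm3

set_option autoImplicit false
set_option linter.all false

namespace Pool.Agent.Q65.MK

open Pool.Agent.Q291.MK Pool.Agent.Q280.MK Finset

theorem pow12_le (z : ℝ) : z ^ 12 ≤ 239500800 * (Real.exp z + Real.exp (-z)) := by
  have h1 := Real.hasSum_cosh z
  have h2 : z ^ (2 * 6) / ((2 * 6).factorial : ℝ) ≤ Real.cosh z :=
    le_hasSum h1 6 fun j _ => by
      have : 0 ≤ z ^ (2 * j) := by
        rw [pow_mul]
        positivity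
      positivity
  rw [Real.cosh_eq] at h2
  have h3 : ((2 * 6).factorial : ℝ) = 479001600 := by norm_num [Nat.factorial]
  rw [h3, div_le_iff₀ (by norm_num)] at h2
  have h4 : z ^ (2 * 6) = z ^ 12 := by norm_num
  rw [h4] at h2
  linarith

theorem H12 (K L : ℕ) : H K L (fun j => ((j:ℝ) - hm K L) ^ 12) ≤
    1500000000 * ((K:ℝ) + 1) ^ 6 := by
  obtain ⟨h, hh⟩ : ∃ h : ℝ, h = hm K L := ⟨_, rfl⟩
  have hh0 : 0 ≤ h := by rw [hh]; exact hm_nonneg K L
  have hhK : h ≤ K := by rw [hh]; exact hm_le K L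
  have hK : (0 : ℝ) ≤ K := Nat.cast_nonneg K
  obtain ⟨l, hl⟩ : ∃ l : ℝ, l = 1 / Real.sqrt (K + 1) := ⟨_, rfl⟩
  have hs : 0 < Real.sqrt ((K : ℝ) + 1) := Real.sqrt_pos.2 (by linarith)
  have hl0 : 0 < l := by rw [hl]; positivity
  have hl2 : l ^ 2 * (K + 1) = 1 := by
    rw [hl, div_pow, one_pow, Real.sq_sqrt (by linarith)]
    field_simp
  have hl1 : l ≤ 1 := by
    by_contra hc
    have hc' := not_le.1 hc
    nlinarith
  have hlK : l ^ 2 * K ≤ 1 := by nlinarith [sq_nonneg l]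
  have hu0 : 0 ≤ Real.exp l - 1 := by linarith [Real.add_one_le_exp l]
  have hu1 : Real.exp l - 1 - l ≤ l ^ 2 := by
    have h1 := Real.abs_exp_sub_one_sub_id_le (show |l| ≤ 1 by rw [abs_of_pos hl0]; exact hl1)
    exact (le_abs_self _).trans h1
  have hu2 : 0 ≤ Real.exp l - 1 - l := by linarith [Real.add_one_le_exp l]
  have e1 : H K L (fun j => Real.exp (l * ((j : ℝ) - h))) ≤ Real.exp 1 := by
    have h1 : H K L (fun j => Real.exp (l * ((j : ℝ) - h))) =
        Real.exp (-(l * h)) * H K L (fun j => (1 + (Real.exp l - 1)) ^ j) := by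
      rw [← H_smul]
      refine H_congr K L fun j _ => ?_
      rw [add_sub_cancel, ← Real.exp_nat_mul, ← Real.exp_add]
      congr 1
      ring
    rw [h1]
    calc _ ≤ Real.exp (-(l * h)) * Real.exp ((Real.exp l - 1) * h) := by
          rw [hh]
          exact mul_le_mul_of_nonneg_left (exp_le K L _ hu0) (Real.exp_pos _).le
      _ = Real.exp ((Real.exp l - 1 - l) * h) := by
          rw [← Real.exp_add]
          congr 1
          ring
      _ ≤ Real.exp 1 := by
          apply Real.exp_le_exp.2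
          calc _ ≤ l ^ 2 * K := mul_le_mul hu1 hhK hh0 (sq_nonneg l)
            _ ≤ 1 := hlK
  have e2 : H K L (fun j => Real.exp (-(l * ((j : ℝ) - h)))) ≤ Real.exp 1 := by
    have h1 : H K L (fun j => Real.exp (-(l * ((j : ℝ) - h)))) =
        Real.exp (-(l * (K - h))) * H K L (fun j => (1 + (Real.exp l - 1)) ^ (K - j)) := by
      rw [← H_smul]
      refine H_congr K L fun j hj => ?_
      rw [add_sub_cancel, ← Real.exp_nat_mul, ← Real.exp_add, Nat.cast_sub hj]
      congr 1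
      ring
    rw [h1]
    calc _ ≤ Real.exp (-(l * (K - h))) * Real.exp ((Real.exp l - 1) * (K - h)) := by
          rw [hh]
          exact mul_le_mul_of_nonneg_left (exp_le' K L _ hu0) (Real.exp_pos _).le
      _ = Real.exp ((Real.exp l - 1 - l) * (K - h)) := by
          rw [← Real.exp_add]
          congr 1
          ring
      _ ≤ Real.exp 1 := by
          apply Real.exp_le_exp.2
          calc _ ≤ l ^ 2 * K := mul_le_mul hu1 (by linarith) (by linarith) (sq_nonneg l)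
            _ ≤ 1 := hlK
  have h8 : l ^ 12 * ((K : ℝ) + 1) ^ 6 = 1 := by
    calc l ^ 12 * ((K : ℝ) + 1) ^ 6 = (l ^ 2 * (K + 1)) ^ 6 := by ring
      _ = 1 := by rw [hl2, one_pow]
  have hpt : ∀ j : ℕ, ((j : ℝ) - hm K L) ^ 12 ≤ (239500800 * ((K : ℝ) + 1) ^ 6) *
      (Real.exp (l * ((j : ℝ) - h)) + Real.exp (-(l * ((j : ℝ) - h)))) := by
    intro j
    rw [← hh]
    have h1 := pow12_le (l * ((j : ℝ) - h))
    have h2 : 0 ≤ ((K : ℝ) + 1) ^ 6 := by positivity
    calc ((j : ℝ) - h) ^ 12 = (l ^ 12 * ((K : ℝ) + 1) ^ 6) * ((j : ℝ) - h) ^ 12 := by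
          rw [h8, one_mul]
      _ = ((K : ℝ) + 1) ^ 6 * (l * ((j : ℝ) - h)) ^ 12 := by ring
      _ ≤ ((K : ℝ) + 1) ^ 6 * (239500800 * (Real.exp (l * ((j : ℝ) - h)) +
          Real.exp (-(l * ((j : ℝ) - h))))) := mul_le_mul_of_nonneg_left h1 h2
      _ = _ := by ring
  refine (H_mono K L fun j _ => hpt j).trans ?_
  rw [H_smul, H_add]
  have h9 : Real.exp 1 < 2.7182818286 := Real.exp_one_lt_d9
  have h10 : 0 ≤ ((K : ℝ) + 1) ^ 6 := by positivity
  nlinarith

theorem H_newton (K L N : ℕ) (hN : K ≤ N) (φ : ℕ → ℝ) :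
    H K L φ = ∑ r ∈ range (N + 1), (fwdDiff 1)^[r] φ 0 *
      ((K.choose r : ℝ) * (L.choose r : ℝ) / gb (K + L + 1/2) r) := by
  have h1 : ∀ j, j ≤ K → φ j = ∑ r ∈ range (N + 1), (fwdDiff 1)^[r] φ 0 * (j.choose r : ℝ) := by
    intro j hj
    have h2 := shift_eq_sum_fwdDiff_iter (h := 1) (f := φ) j 0
    simp only [zero_add, smul_eq_mul, mul_one, nsmul_eq_mul] at h2
    rw [h2]
    have h3 : range (j + 1) ⊆ range (N + 1) := Finset.range_subset_range.2 (by omega)
    rw [← Finset.sum_subset h3]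
    · exact Finset.sum_congr rfl fun r _ => mul_comm _ _
    · intro r _ hr
      have h4 : j < r := by
        rw [Finset.mem_range] at hr
        omega
      rw [Nat.choose_eq_zero_of_lt h4]
      simp
  rw [H_congr K L h1, H_sum]
  refine Finset.sum_congr rfl fun r _ => ?_
  rw [H_smul, H_fact]

theorem H_symm (K L : ℕ) (φ : ℕ → ℝ) : H K L φ = H L K φ := by
  rw [H_newton K L (max K L) (le_max_left _ _), H_newton L K (max K L) (le_max_right _ _)]
  refine Finset.sum_congr rfl fun r _ => ?_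
  rw [mul_comm (K.choose r : ℝ), add_comm (K : ℝ) (L : ℝ)]

theorem hm_symm (K L : ℕ) : hm K L = hm L K := by
  unfold hm
  rw [mul_comm (K : ℝ), add_comm (K : ℝ)]

theorem t_HTW : P_HTW := by
  refine ⟨1500000000, by norm_num, fun K L => ?_⟩
  rcases le_total K L with h | h
  · rw [min_eq_left (by exact_mod_cast h : (K : ℝ) ≤ L)]
    exact H12 K L
  · rw [min_eq_right (by exact_mod_cast h : (L : ℝ) ≤ K), H_symm, hm_symm]
    exact H12 L K

end Pool.Agent.Q65.MK
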