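import Pool.Agent.Q65.MK.ADJ
import Pool.Agent.Q65.MK.GRO

set_option autoImplicit false
set_option linter.all false

namespace Pool.Agent.Q65.MK

open Pool.Agent.Q291.MK Finset
open Pool.Agent.Q222.MK

theorem Sg.E_add {h : ℕ → ℝ} (hh : Sg h) {φ ψ : ℕ → ℝ} (hφ : PB φ) (hψ : PB ψ) :
    E h (fun k => φ k + ψ k) = E h φ + E h ψ := by
  unfold E; rw [← (Sg.summ' hh hφ).tsum_add (Sg.summ' hh hψ)]; exact tsum_congr fun k => by ring

theorem Sg.E_const {h : ℕ → ℝ} (hh : Sg h) (c : ℝ) : E h (fun _ => c) = 0 := by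
  have := E_const_mul (a := h) c (fun _ => 1)
  rw [hh.zero, mul_zero] at this
  simpa using this

theorem PB_sh {φ : ℕ → ℝ} (h : PB φ) (L : ℕ) : PB (fun K => φ (K + L)) := by
  obtain ⟨C, q, hC, hb⟩ := (PB_sum h).nonneg_C
  refine ⟨C * (1 + (L:ℝ)) ^ q, q, fun K => (hb K L).trans (le_of_eq ?_)⟩
  rw [mul_pow]; ring

theorem PB_dl {φ : ℕ → ℝ} (h : PB φ) : PB (dl φ) := (PB_sh h 1).sub h

theorem dl_SS {a : ℕ → ℝ} (ha : AM a) {φ : ℕ → ℝ} (h : PB φ) : dl (SS a φ) = SS a (dl φ) := by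
  funext L
  unfold SS
  have h1 : E a (fun K => dl φ (K + L)) = E a (fun K => φ (K + (L + 1))) - E a (fun K => φ (K + L)) := by
    rw [← ha.E_sub (PB_sh h (L + 1)) (PB_sh h L)]
    rfl
  rw [h1]
  unfold dl
  ring

theorem E2_iter {a : ℕ → ℝ} (ha : AM a) {φ : ℕ → ℕ → ℝ} (hφ : PB2 φ) :
    E a (fun L => E a (fun K => φ K L)) = E2 a φ := by
  have hs := ha.summ2 hφ
  unfold E2
  have h1 : ∑' p : ℕ × ℕ, a p.1 * a p.2 * φ p.1 p.2 =
      ∑' p : ℕ × ℕ, a p.2 * a p.1 * φ p.2 p.1 := by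
    rw [← (Equiv.prodComm ℕ ℕ).tsum_eq]
    rfl
  have hs' : Summable fun p : ℕ × ℕ => a p.2 * a p.1 * φ p.2 p.1 := by
    have := (Equiv.prodComm ℕ ℕ).summable_iff.mpr hs
    exact this
  rw [h1, hs'.tsum_prod]
  unfold E
  refine tsum_congr fun L => ?_
  rw [← tsum_mul_left]
  exact tsum_congr fun K => by ring

theorem pow10 (x y : ℝ) : (x + y) ^ 10 ≤ 10 ^ 27 * x ^ 10 + 101 / 100 * y ^ 10 := by
  have hc := (Even.convexOn_pow (𝕜 := ℝ) (n := 10) (by decide)).2
  have h := hc (Set.mem_univ (1000 * x)) (Set.mem_univ (1000 / 999 * y))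
    (show (0:ℝ) ≤ 1 / 1000 by norm_num) (show (0:ℝ) ≤ 999 / 1000 by norm_num) (by norm_num)
  simp only [smul_eq_mul] at h
  have h1 : (1 / 1000 * (1000 * x) + 999 / 1000 * (1000 / 999 * y)) = x + y := by ring
  rw [h1] at h
  have h2 : (0:ℝ) ≤ y ^ 10 := by positivity
  have h3 : 999 / 1000 * (1000 / 999 * y) ^ 10 = (1000 / 999) ^ 9 * y ^ 10 := by ring
  have h4 : 1 / 1000 * (1000 * x) ^ 10 = 10 ^ 27 * x ^ 10 := by ring
  rw [h3, h4] at h
  have h5 : ((1000:ℝ) / 999) ^ 9 ≤ 101 / 100 := by norm_num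
  have h6 := mul_le_mul_of_nonneg_right h5 h2
  linarith

theorem t_NS' (hADJ : P_ADJ) : P_NS := by
  intro C3 C8 C12 hC3 hC8 hC12
  refine ⟨32 / (100 * 10 ^ 27 * (1 + C12)), by positivity, fun e he0 he1 a ha hm h c ρ hN => ?_⟩
  have haA : AM a := ha.toCls.toAM
  have hSA : AM (S a) := AM_S haA
  have hh : Sg h := hN.sg
  set μ := mean a with hμ
  have hμ0 : 0 < μ := by linarith
  have hmS : mean (S a) = 2 * μ := mean_S haA
  obtain ⟨-, hsg, hadj⟩ := hADJ a h haA hh
  have hE : ∀ φ : ℕ → ℝ, PB φ → E (dS a h) φ = E h (SS a φ) := fun φ hφ => (hadj φ hφ).2.2.2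
  have hPBSS : ∀ φ : ℕ → ℝ, PB φ → PB (SS a φ) := fun φ hφ => (hadj φ hφ).2.1
  have hEid : E a (fun K => (K:ℝ)) = μ := rfl
  constructor
  · refine ⟨hsg, ?_, ?_⟩
    · rw [hE _ PB.id]
      have h1 : SS a (fun k => (k:ℝ)) = fun L : ℕ => 2 * μ + 2 * (L:ℝ) := by
        funext L
        unfold SS
        have h2 : (fun K : ℕ => ((K + L : ℕ) : ℝ)) = fun K : ℕ => (K:ℝ) + (L:ℝ) := by
          funext K; push_cast; ring
        rw [h2, haA.E_add PB.id (PB.const _), haA.toLaw.E_const, hEid]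
        ring
      rw [h1, Sg.E_add hh (PB.const _) ((PB.const _).mul PB.id), Sg.E_const hh, E_const_mul,
        hN.mn]
      ring
    · intro φ hφ
      rw [hmS] at hφ
      have hPB := hφ.pb
      have hd1 : dl (SS a φ) = SS a (dl φ) := dl_SS haA hPB
      have hd2 : dl (dl (SS a φ)) = SS a (dl (dl φ)) := by
        rw [hd1, dl_SS haA (PB_dl hPB)]
      have hbnd : ∀ L : ℕ, |dl (dl (SS a φ)) L| ≤ 101 / 50 * wt (101 / 3200 * e) μ L := by
        intro L
        rw [hd2]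
        unfold SS
        have pdd : PB (dl (dl φ)) := PB_dl (PB_dl hPB)
        have h1 : |E a (fun K => dl (dl φ) (K + L))| ≤ E a (fun K => |dl (dl φ) (K + L)|) :=
          haA.abs_E_le (PB_sh pdd L)
        set y := (L:ℝ) - μ with hy
        have p10 : PB (fun K : ℕ => |(K:ℝ) - μ| ^ 10) := (PBz μ).pow 10
        have h2 : ∀ K : ℕ, |dl (dl φ) (K + L)| ≤
            (1 + e / (32 * μ ^ 5) * (101 / 100 * y ^ 10)) +
              (e / (32 * μ ^ 5) * 10 ^ 27) * |(K:ℝ) - μ| ^ 10 := by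
          intro K
          refine (hφ.bd (K + L)).trans ?_
          unfold wt
          have h3 := pow10 ((K:ℝ) - μ) y
          have h4 : ((K + L : ℕ) : ℝ) - 2 * μ = ((K:ℝ) - μ) + y := by
            rw [hy]; push_cast; ring
          have h5 : |(K:ℝ) - μ| ^ 10 = ((K:ℝ) - μ) ^ 10 := by
            rw [← abs_pow]; exact abs_of_nonneg (by positivity)
          rw [h4, h5]
          have h6 : e * (((K:ℝ) - μ + y) ^ 10 / (2 * μ) ^ 5) =
              e / (32 * μ ^ 5) * ((K:ℝ) - μ + y) ^ 10 := by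
            rw [mul_pow]; norm_num; ring
          rw [h6]
          have h7 : 0 ≤ e / (32 * μ ^ 5) := by positivity
          have h8 := mul_le_mul_of_nonneg_left h3 h7
          linarith
        have h3 := haA.E_mono (PB_sh pdd L).abs ((PB.const _).add ((PB.const _).mul p10)) h2
        rw [haA.E_add (PB.const _) ((PB.const _).mul p10), E_const_mul, haA.toLaw.E_const] at h3
        have h4 := Ezp haA C12 ha.m12_le hμ0 10 (by norm_num)
        rw [← hμ] at h4
        have h5 : √μ ^ 10 = μ ^ 5 := by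
          have : √μ ^ 2 = μ := Real.sq_sqrt hμ0.le
          calc √μ ^ 10 = (√μ ^ 2) ^ 5 := by ring
            _ = _ := by rw [this]
        rw [h5] at h4
        have h6 : (e / (32 * μ ^ 5) * 10 ^ 27) * E a (fun k => |(k:ℝ) - μ| ^ 10) ≤ 1 / 100 := by
          have h7 : (e / (32 * μ ^ 5) * 10 ^ 27) * E a (fun k => |(k:ℝ) - μ| ^ 10) ≤
              (e / (32 * μ ^ 5) * 10 ^ 27) * ((1 + C12) * μ ^ 5) :=
            mul_le_mul_of_nonneg_left h4 (by positivity)
          refine h7.trans ?_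
          have h8 : (e / (32 * μ ^ 5) * 10 ^ 27) * ((1 + C12) * μ ^ 5) =
              e * (10 ^ 27 * (1 + C12) / 32) := by
            field_simp
          rw [h8]
          have h9 := mul_le_mul_of_nonneg_right he1
            (show 0 ≤ 10 ^ 27 * (1 + C12) / 32 by positivity)
          refine h9.trans (le_of_eq ?_)
          have : (1 + C12) ≠ 0 := by positivity
          field_simp
        rw [abs_mul, abs_of_pos (show (0:ℝ) < 2 by norm_num)]
        unfold wt
        have h7 : e / (32 * μ ^ 5) * (101 / 100 * y ^ 10) =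
            101 / 3200 * e * (y ^ 10 / μ ^ 5) := by
          field_simp
          ring
        rw [h7] at h3
        have h8 : 0 ≤ 101 / 3200 * e * (y ^ 10 / μ ^ 5) := by positivity
        linarith
      have hT : Tst (101 / 3200 * e) μ (fun L => 50 / 101 * SS a φ L) := by
        refine ⟨(PB.const _).mul (hPBSS φ hPB), fun L => ?_⟩
        have h1 : dl (dl (fun L => 50 / 101 * SS a φ L)) L = 50 / 101 * dl (dl (SS a φ)) L := by
          unfold dl; ring
        rw [h1, abs_mul, abs_of_pos (show (0:ℝ) < 50 / 101 by norm_num)]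
        have := hbnd L
        linarith
      have h1 := hN.bd _ hT
      have h2 : dl (fun L => 50 / 101 * SS a φ L) = fun L => 50 / 101 * dl (SS a φ) L := by
        funext L; unfold dl; ring
      rw [h2, E_const_mul, E_const_mul, hd1] at h1
      have h3 : E a (SS a (dl φ)) = 2 * E (S a) (dl φ) := by
        have h4 := (t_SLAW_only a haA).2 (dl φ) (PB_dl hPB)
        rw [h4.2, ← E2_iter haA h4.1]
        unfold SS
        rw [E_const_mul]
      rw [h3] at h1
      rw [hE φ hPB]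
      have h5 : 50 / 101 * E h (SS a φ) - c * (50 / 101 * (2 * E (S a) (dl φ))) =
          50 / 101 * (E h (SS a φ) - 2 * c * E (S a) (dl φ)) := by ring
      rw [h5, abs_mul, abs_of_pos (show (0:ℝ) < 50 / 101 by norm_num)] at h1
      linarith
  · unfold dv
    rw [hmS]
    have hc : PB (fun k : ℕ => ((k:ℝ) - μ)) := PB.id.sub (PB.const _)
    rw [hE _ ((PB.id.sub (PB.const _)).pow 2)]
    have hEc : E a (fun K => (K:ℝ) - μ) = 0 := E_cent haA
    have h1 : SS a (fun k => ((k:ℝ) - 2 * μ) ^ 2) = fun L : ℕ => 2 * vr a + 2 * ((L:ℝ) - μ) ^ 2 := by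
      funext L
      unfold SS
      have h2 : (fun K : ℕ => (((K + L : ℕ) : ℝ) - 2 * μ) ^ 2) = fun K : ℕ =>
          (((K:ℝ) - μ) ^ 2 + (2 * ((L:ℝ) - μ)) * ((K:ℝ) - μ)) + ((L:ℝ) - μ) ^ 2 := by
        funext K; push_cast; ring
      rw [h2, haA.E_add ((hc.pow 2).add ((PB.const _).mul hc)) (PB.const _),
        haA.E_add (hc.pow 2) ((PB.const _).mul hc), haA.toLaw.E_const, E_const_mul, hEc]
      have h3 : E a (fun K => ((K:ℝ) - μ) ^ 2) = vr a := rfl
      rw [h3]
      ring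
    rw [h1, Sg.E_add hh (PB.const _) ((PB.const _).mul (hc.pow 2)), Sg.E_const hh, E_const_mul]
    ring

theorem t_NS : P_ADJ → P_NS := t_NS'

end Pool.Agent.Q65.MK
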